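import Pool.Agent.U691.HA.Fin

/-!
# Homology of the Allison–Benkart–Gao algebra of a free alternative algebra

Let `V` be a vector space of dimension two over a field `F` of characteristic zero, `A` the free
alternative algebra (without unit) on `V` and `g = ABG(A) = sl₃ ⊗ A ⊕ B(A)` its
Allison–Benkart–Gao Lie algebra.  Then for some `k` with `2 ≤ k ≤ 17` the homology `H_k(g, F)`
contains a trivial or an adjoint `sl₃`-submodule.
-/

set_option autoImplicit false

namespace Pool.Agent.Results.MP_894cc0_al.TrivialOrAdjoint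

open Pool.Agent.U691.HA Pool.Agent.U691.Shang

/-- For `dim V = 2` the Allison–Benkart–Gao algebra `g` of the free alternative algebra on `V`
exists, and there is a `k` with `2 ≤ k ≤ 17` such that the `sl₃`-module `H_k(g, F)` contains a
submodule isomorphic to the trivial module or to the adjoint module. -/
theorem result (F : Type) [Field F] [CharZero F] :
    ∃ (g : Type) (_ : LieRing g) (_ : LieAlgebra F g)
      (t : LieAlgebra.SpecialLinear.sl (Fin 3) F →ₗ[F] FreeAlt F 2 →ₗ[F] g)
      (w : FreeAlt F 2 →ₗ[F] FreeAlt F 2 →ₗ[F] g)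
      (r : LieAlgebra.SpecialLinear.sl (Fin 3) F → g →ₗ[F] g),
      IsABG F (FreeAlt F 2) g t w r ∧
      ∃ k : ℕ, 2 ≤ k ∧ k ≤ 17 ∧ (TrivialIn F g r k ∨ AdjointIn F g r k) := by
  refine ⟨G F (FreeAlt F 2), inferInstance, inferInstance, tT F _, wT F _, slAct F _,
    isABG F _, ?_⟩
  by_contra hcon
  push Not at hcon
  exact main F fun k h1 h2 => hcon k h1 h2

end Pool.Agent.Results.MP_894cc0_al.TrivialOrAdjoint
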